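import Mathlib

open Filter Topology Set Metric Complex

namespace Pool.Agent.Results.MP_dfd3b8_an.NotSharp

/-- The Taylor coefficient `a_k` of `f` at `0`. -/
noncomputable def coef (f : ℂ → ℂ) (k : ℕ) : ℂ := iteratedDeriv k f 0 / (k.factorial : ℂ)

/-- The class `𝒜`. -/
def InA (f : ℂ → ℂ) : Prop := DifferentiableOn ℂ f (ball 0 1) ∧ f 0 = 0 ∧ deriv f 0 = 1

/-- The Fekete–Szegő functional. -/
noncomputable def Phi (f : ℂ → ℂ) (l : ℂ) : ℂ := coef f 3 - l * coef f 2 ^ 2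

open Classical in
/-- The function `g_{α,β}`. -/
noncomputable def g (α β : ℝ) (f : ℂ → ℂ) (z : ℂ) : ℂ :=
  α * (if z = 0 then 1 else f z / z) + β * (if z = 0 then 1 else z * deriv f z / f z) +
    (1 - α - β) * (1 + z * deriv (deriv f) z / deriv f z)

/-- The class `M_{α,β}`; a denominator must be nonzero when its term has a nonzero
coefficient. -/
def InM (α β : ℝ) (f : ℂ → ℂ) : Prop :=
  InA f ∧ (β ≠ 0 → ∀ z ∈ ball (0 : ℂ) 1, z ≠ 0 → f z ≠ 0) ∧
    (1 - α - β ≠ 0 → ∀ z ∈ ball (0 : ℂ) 1, deriv f z ≠ 0) ∧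
    ∀ z ∈ ball (0 : ℂ) 1, (α + β) / 2 < (g α β f z).re

def InR (α β : ℝ) : Prop := α + β < 2 ∧ 5 * α + 4 * β < 6

noncomputable def mu (α β : ℝ) : ℝ := (2 - α - β) / (6 - 5 * α - 4 * β)

/-- The bound is sharp for `(α, β)`. -/
def Sharp (α β : ℝ) : Prop :=
  ∀ l : ℂ, IsLUB {x : ℝ | ∃ f, InM α β f ∧ x = ‖Phi f l‖} (max (mu α β) ‖1 - l‖)

lemma re_pos {p : ℂ → ℂ} (hp : DifferentiableOn ℂ p (ball 0 1)) (h0 : p 0 = 1)
    (h : ∀ z ∈ ball (0 : ℂ) 1, z ≠ 0 → (p z).re = 0 → (z * deriv p z).im ≠ 0) :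
    ∀ z ∈ ball (0 : ℂ) 1, 0 < (p z).re := by
  intro z1 hz1
  by_contra hneg
  push Not at hneg
  have hsub : closedBall (0 : ℂ) ‖z1‖ ⊆ ball 0 1 :=
    closedBall_subset_ball (mem_ball_zero_iff.1 hz1)
  have hcont : ContinuousOn (fun z => (p z).re) (ball 0 1) :=
    continuous_re.comp_continuousOn hp.continuousOn
  set S : Set ℂ := closedBall (0 : ℂ) ‖z1‖ ∩ (fun z => (p z).re) ⁻¹' Iic 0 with hS
  have hSc : IsCompact S := (isCompact_closedBall _ _).of_isClosed_subset
    ((hcont.mono hsub).preimage_isClosed_of_isClosed isClosed_closedBall isClosed_Iic)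
    inter_subset_left
  obtain ⟨z0, ⟨hz0a, hz0b⟩, hmin⟩ := hSc.exists_isMinOn ⟨z1, by simp [hS, hneg]⟩
    continuous_norm.continuousOn
  have hz0 : z0 ∈ ball (0 : ℂ) 1 := hsub hz0a
  have hz0b' : (p z0).re ≤ 0 := hz0b
  have hne : z0 ≠ 0 := by
    rintro rfl
    rw [h0] at hz0b'
    norm_num at hz0b'
  have hlt : ∀ w : ℂ, ‖w‖ < ‖z0‖ → 0 < (p w).re := by
    intro w hw
    by_contra hw'
    push Not at hw'
    have : w ∈ S := ⟨by
      rw [mem_closedBall_zero_iff] at hz0a ⊢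
      linarith, hw'⟩
    exact absurd (hmin this) (not_le.2 hw)
  have hle : ∀ w : ℂ, ‖w‖ = ‖z0‖ → 0 ≤ (p w).re := by
    intro w hw
    have hwb : w ∈ ball (0 : ℂ) 1 := by
      rw [mem_ball_zero_iff] at hz0 ⊢
      linarith
    have hc : ContinuousAt (fun z => (p z).re) w := hcont.continuousAt (isOpen_ball.mem_nhds hwb)
    have hcl : w ∈ closure (ball (0 : ℂ) ‖z0‖) := by
      rw [closure_ball _ (norm_ne_zero_iff.2 hne), mem_closedBall_zero_iff, hw]
    exact ContinuousWithinAt.closure_le hcl continuousWithinAt_const hc.continuousWithinAt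
      (fun y hy => (hlt y (mem_ball_zero_iff.1 hy)).le)
  have hre : (p z0).re = 0 := le_antisymm hz0b' (hle z0 rfl)
  have hd : HasDerivAt p (deriv p z0) (z0 * cexp (((0 : ℝ) : ℂ) * I)) := by
    simpa using (hp.differentiableAt (isOpen_ball.mem_nhds hz0)).hasDerivAt
  have hi : HasDerivAt (fun t : ℂ => z0 * cexp (t * I)) (z0 * I) ((0 : ℝ) : ℂ) := by
    simpa using (((hasDerivAt_id ((0 : ℝ) : ℂ)).mul_const I).cexp).const_mul z0
  have hd2 := (hd.comp ((0 : ℝ) : ℂ) hi).real_of_complex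
  have hloc : IsLocalMin (fun t : ℝ => (p (z0 * cexp ((t : ℂ) * I))).re) 0 := by
    refine Eventually.of_forall fun t => ?_
    have := hle (z0 * cexp ((t : ℂ) * I)) (by rw [norm_mul, norm_exp_ofReal_mul_I, mul_one])
    simpa [hre] using this
  have := hloc.hasDerivAt_eq_zero hd2
  apply h z0 hz0 hne hre
  simp only [mul_re, mul_im, I_re, I_im] at this ⊢
  linarith

lemma bound {α : ℝ} (hα : 1 < α) {f : ℂ → ℂ} (hf : InM α (1 - α) f) : ‖Phi f 0‖ ≤ 12 := by
  obtain ⟨⟨hd, h0, h1⟩, hne, -, hre⟩ := hf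
  have hne := hne (by linarith)
  set p := dslope f 0 with hp
  have hpd : DifferentiableOn ℂ p (ball 0 1) :=
    (differentiableOn_dslope (ball_mem_nhds 0 one_pos)).2 hd
  have hp0 : p 0 = 1 := by rw [hp, dslope_same, h1]
  have hfp : ∀ z, f z = z * p z := fun z => by
    have := sub_smul_dslope f 0 z
    rw [h0, sub_zero, sub_zero, smul_eq_mul] at this
    exact this.symm
  have hpos : ∀ z ∈ ball (0 : ℂ) 1, 0 < (p z).re := by
    refine re_pos hpd hp0 fun z hz hz0 hr hi => ?_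
    have hpz : p z ≠ 0 := fun h => hne z hz hz0 (by rw [hfp, h, mul_zero])
    have hder : deriv f z = p z + z * deriv p z := by
      have e : f = fun w => w * p w := funext hfp
      have := ((hasDerivAt_id' z).fun_mul
        (hpd.differentiableAt (isOpen_ball.mem_nhds hz)).hasDerivAt).deriv
      rw [e]
      simpa using this
    have hg := hre z hz
    have e : g α (1 - α) f z = α * p z + (1 - α : ℝ) * (1 + z * deriv p z / p z) := by
      rw [g, if_neg hz0, if_neg hz0, hder, hfp z]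
      push_cast
      field_simp
      ring
    have e2 : (z * deriv p z / p z).re = 0 := by
      rw [div_re, hr, hi]
      simp
    rw [e] at hg
    simp only [add_re, re_ofReal_mul, e2, hr, one_re] at hg
    linarith
  have hb : ∀ z ∈ sphere (0 : ℂ) (1 / 2), ‖f z‖ ≤ 3 / 2 := by
    intro z hz
    have hn : ‖z‖ = 1 / 2 := mem_sphere_zero_iff_norm.1 hz
    have := borelCaratheodory_zero (f := fun w => 1 - p w) (M := 1) (R := 1) (z := z) one_pos
      (hpd.const_sub 1) (fun w hw => by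
        have := hpos w hw
        simp only [mem_ofPred_eq, sub_re, one_re]
        linarith) one_pos (by rw [mem_ball_zero_iff, hn]; norm_num) (by simp [hp0])
    have h2 : ‖p z‖ ≤ ‖(1 : ℂ)‖ + ‖1 - p z‖ := by
      simpa using norm_sub_le (1 : ℂ) (1 - p z)
    rw [hn] at this
    rw [hfp, norm_mul, hn]
    rw [norm_one] at h2
    norm_num at this
    linarith
  have hc : DiffContOnCl ℂ f (ball 0 (1 / 2)) :=
    hd.diffContOnCl_ball (closedBall_subset_ball (by norm_num))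
  have := norm_iteratedDeriv_le_of_forall_mem_sphere_norm_le 3 (by norm_num) hc hb
  rw [Phi, zero_mul, sub_zero, coef, norm_div, Complex.norm_natCast,
    div_le_iff₀ (by positivity)]
  refine this.trans (le_of_eq ?_)
  norm_num [Nat.factorial]

theorem result :
    (∀ α : ℝ, 23 / 12 < α → α < 2 → InR α (1 - α) ∧ InM α (1 - α) id ∧
      12 < max (mu α (1 - α)) ‖(1 : ℂ) - 0‖ ∧ ∀ f, InM α (1 - α) f → ‖Phi f 0‖ ≤ 12) ∧
    ¬ ∀ α β : ℝ, InR α β → Sharp α β := by
  have main : ∀ α : ℝ, 23 / 12 < α → α < 2 → InR α (1 - α) ∧ InM α (1 - α) id ∧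
      12 < max (mu α (1 - α)) ‖(1 : ℂ) - 0‖ ∧ ∀ f, InM α (1 - α) f → ‖Phi f 0‖ ≤ 12 := by
    intro α h1 h2
    refine ⟨⟨by linarith, by linarith⟩, ⟨⟨differentiableOn_id, rfl, by simp⟩,
      fun _ z _ hz => hz, fun _ z _ => by simp, fun z _ => ?_⟩, lt_max_of_lt_left ?_,
      fun f hf => bound (by linarith) hf⟩
    · have : g α (1 - α) id z = 1 := by
        by_cases hz : z = 0
        · simp [g, hz]
        · simp [g, hz]
      rw [this]
      norm_num
    · rw [mu, lt_div_iff₀ (by linarith)]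
      linarith
  refine ⟨main, fun h => ?_⟩
  obtain ⟨hR, -, hlt, hb⟩ := main (39 / 20) (by norm_num) (by norm_num)
  have : max (mu (39 / 20) (1 - 39 / 20)) ‖(1 : ℂ) - 0‖ ≤ 12 := (h _ _ hR 0).2 (by
    rintro x ⟨f, hf, rfl⟩
    exact hb f hf)
  linarith

end Pool.Agent.Results.MP_dfd3b8_an.NotSharp
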